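import Pool.Agent.Helper99.MKV.GoalsR

/-!
# MKV: packet CND (pure probability)
-/

open Finset MeasureTheory ProbabilityTheory Filter
open scoped ENNReal

namespace Pool.Agent.Helper35.MKV

open Pool.Agent.Helper99.MKV Pool.Agent.Helper99.EXC Pool.Agent.Helper99.ERW

theorem CND : CND_stmt := by
  intro Ω mΩ μ hμ X hX y c0 hc0 h
  have key : ∀ n : ℕ, μ {w | ∀ i, n ≤ i → X i w ≠ y} = 0 := by
    intro n
    have hms : ∀ i, MeasurableSet {w | X i w ≠ y} := by
      intro i
      have h1 : {w | X i w ≠ y} = X i ⁻¹' {y}ᶜ := by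
        ext w; simp
      rw [h1]
      exact hX i (MeasurableSet.compl (measurableSet_singleton y))
    have hBm : ∀ m, MeasurableSet {w | ∀ i, n ≤ i → i ≤ m → X i w ≠ y} := by
      intro m
      have h1 : {w | ∀ i, n ≤ i → i ≤ m → X i w ≠ y} = ⋂ i, ⋂ (_ : n ≤ i), ⋂ (_ : i ≤ m), {w | X i w ≠ y} := by
        ext w; simp
      rw [h1]
      exact MeasurableSet.iInter fun i => MeasurableSet.iInter fun _ => MeasurableSet.iInter fun _ => hms i
    have hAB : ∀ m, {w | ∀ i, n ≤ i → X i w ≠ y} ⊆ {w | ∀ i, n ≤ i → i ≤ m → X i w ≠ y} :=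
      fun m w hw i hi _ => hw i hi
    have hanti : Antitone (fun m => {w | ∀ i, n ≤ i → i ≤ m → X i w ≠ y}) :=
      fun m m' hmm w hw i hi hi' => hw i hi (hi'.trans hmm)
    have hinter : (⋂ m, {w | ∀ i, n ≤ i → i ≤ m → X i w ≠ y}) = {w | ∀ i, n ≤ i → X i w ≠ y} := by
      ext w
      simp only [Set.mem_iInter, Set.mem_ofPred_eq]
      exact ⟨fun hw i hi => hw i i hi le_rfl, fun hw m i hi _ => hw i hi⟩
    have hlim : Tendsto (fun m => μ {w | ∀ i, n ≤ i → i ≤ m → X i w ≠ y}) atTop
        (nhds (μ {w | ∀ i, n ≤ i → X i w ≠ y})) := by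
      rw [← hinter]
      exact tendsto_measure_iInter_atTop (fun m => (hBm m).nullMeasurableSet) hanti ⟨0, measure_ne_top _ _⟩
    have hstep : ∀ m, n ≤ m → ENNReal.ofReal c0 * μ {w | ∀ i, n ≤ i → i ≤ m → X i w ≠ y} +
        μ {w | ∀ i, n ≤ i → X i w ≠ y} ≤ μ {w | ∀ i, n ≤ i → i ≤ m → X i w ≠ y} := by
      intro m hm
      have hH : MeasurableSet {w | ∃ i, m ≤ i ∧ X i w = y} := by
        have h1 : {w | ∃ i, m ≤ i ∧ X i w = y} = ⋃ i, ⋃ (_ : m ≤ i), X i ⁻¹' {y} := by
          ext w; simp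
        rw [h1]
        exact MeasurableSet.iUnion fun i => MeasurableSet.iUnion fun _ => hX i (measurableSet_singleton y)
      have h1 := measure_inter_add_sdiff (μ := μ) {w | ∀ i, n ≤ i → i ≤ m → X i w ≠ y} hH
      have h2 : μ {w | ∀ i, n ≤ i → X i w ≠ y} ≤
          μ ({w | ∀ i, n ≤ i → i ≤ m → X i w ≠ y} \ {w | ∃ i, m ≤ i ∧ X i w = y}) := by
        apply measure_mono
        intro w hw
        refine ⟨hAB m hw, ?_⟩
        rintro ⟨i, hi, hiy⟩
        exact hw i (hm.trans hi) hiy
      have h3 : ENNReal.ofReal c0 * μ {w | ∀ i, n ≤ i → i ≤ m → X i w ≠ y} ≤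
          μ ({w | ∀ i, n ≤ i → i ≤ m → X i w ≠ y} ∩ {w | ∃ i, m ≤ i ∧ X i w = y}) := by
        have hYm : Measurable (fun w => fun k : Fin (m + 1) => X k w) :=
          measurable_pi_lambda _ fun k => hX k
        have hsing : ∀ f : Fin (m + 1) → Site 2,
            ENNReal.ofReal c0 * μ ((fun w => fun k : Fin (m + 1) => X k w) ⁻¹' {f}) ≤
            μ ((fun w => fun k : Fin (m + 1) => X k w) ⁻¹' {f} ∩ {w | ∃ i, m ≤ i ∧ X i w = y}) := by
          intro f
          have h4 : (fun w => fun k : Fin (m + 1) => X k w) ⁻¹' {f} =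
              cyl X (fun k => if hk : k < m + 1 then f ⟨k, hk⟩ else 0) m := by
            ext w
            rw [Set.mem_preimage, Set.mem_singleton_iff]
            constructor
            · intro hw k hk
              have hk' : k < m + 1 := by omega
              show X k w = if hk : k < m + 1 then f ⟨k, hk⟩ else 0
              rw [dif_pos hk']
              exact congrFun hw ⟨k, hk'⟩
            · intro hw
              funext k
              have h5 : X k w = if hk : (k : ℕ) < m + 1 then f ⟨k, hk⟩ else 0 := hw k (by omega)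
              rw [dif_pos k.2] at h5
              exact h5
          rw [h4]
          exact h m _
        have hS : {w | ∀ i, n ≤ i → i ≤ m → X i w ≠ y} = (fun w => fun k : Fin (m + 1) => X k w) ⁻¹'
            {f | ∀ k : Fin (m + 1), n ≤ (k : ℕ) → f k ≠ y} := by
          ext w
          constructor
          · intro hw k hk
            exact hw k hk (by omega)
          · intro hw i hi hi'
            exact hw ⟨i, by omega⟩ hi
        have hSm : MeasurableSet {f : Fin (m + 1) → Site 2 | ∀ k : Fin (m + 1), n ≤ (k : ℕ) → f k ≠ y} :=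
          Set.Countable.measurableSet (Set.to_countable _)
        have e1 : μ {w | ∀ i, n ≤ i → i ≤ m → X i w ≠ y} =
            (μ.map (fun w => fun k : Fin (m + 1) => X k w))
              {f | ∀ k : Fin (m + 1), n ≤ (k : ℕ) → f k ≠ y} := by
          rw [Measure.map_apply hYm hSm, hS]
        have e2 : μ ({w | ∀ i, n ≤ i → i ≤ m → X i w ≠ y} ∩ {w | ∃ i, m ≤ i ∧ X i w = y}) =
            ((μ.restrict {w | ∃ i, m ≤ i ∧ X i w = y}).map (fun w => fun k : Fin (m + 1) => X k w))
              {f | ∀ k : Fin (m + 1), n ≤ (k : ℕ) → f k ≠ y} := by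
          rw [Measure.map_apply hYm hSm, hS, Measure.restrict_apply (hYm hSm)]
        rw [e1, e2, ← Measure.tsum_indicator_apply_singleton _ _ hSm, ← Measure.tsum_indicator_apply_singleton _ _ hSm,
          ← ENNReal.tsum_mul_left]
        apply ENNReal.tsum_le_tsum
        intro f
        by_cases hf : f ∈ {f : Fin (m + 1) → Site 2 | ∀ k : Fin (m + 1), n ≤ (k : ℕ) → f k ≠ y}
        · rw [Set.indicator_of_mem hf, Set.indicator_of_mem hf,
            Measure.map_apply hYm (measurableSet_singleton f), Measure.map_apply hYm (measurableSet_singleton f),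
            Measure.restrict_apply (hYm (measurableSet_singleton f))]
          exact hsing f
        · rw [Set.indicator_of_notMem hf, Set.indicator_of_notMem hf, mul_zero]
      calc ENNReal.ofReal c0 * μ {w | ∀ i, n ≤ i → i ≤ m → X i w ≠ y} + μ {w | ∀ i, n ≤ i → X i w ≠ y}
          ≤ _ := add_le_add h3 h2
        _ = _ := h1
    have h2 : ENNReal.ofReal c0 * μ {w | ∀ i, n ≤ i → X i w ≠ y} + μ {w | ∀ i, n ≤ i → X i w ≠ y} ≤
        μ {w | ∀ i, n ≤ i → X i w ≠ y} := by
      refine ge_of_tendsto hlim ?_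
      filter_upwards [eventually_ge_atTop n] with m hm
      refine le_trans ?_ (hstep m hm)
      exact add_le_add (mul_le_mul' le_rfl (measure_mono (hAB m))) le_rfl
    have h3 : ENNReal.ofReal c0 * μ {w | ∀ i, n ≤ i → X i w ≠ y} ≤ 0 := by
      have h4 : ENNReal.ofReal c0 * μ {w | ∀ i, n ≤ i → X i w ≠ y} + μ {w | ∀ i, n ≤ i → X i w ≠ y} ≤
          0 + μ {w | ∀ i, n ≤ i → X i w ≠ y} := by rwa [zero_add]
      exact (ENNReal.add_le_add_iff_right (measure_ne_top _ _)).1 h4
    have h5 := le_antisymm h3 (zero_le)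
    rcases mul_eq_zero.1 h5 with h6 | h6
    · rw [ENNReal.ofReal_eq_zero] at h6
      linarith
    · exact h6
  have h1 : ∀ᵐ w ∂μ, ∀ n : ℕ, ¬ ∀ i, n ≤ i → X i w ≠ y := by
    rw [ae_all_iff]
    intro n
    rw [ae_iff]
    have h2 : {w | ¬¬ ∀ i, n ≤ i → X i w ≠ y} = {w | ∀ i, n ≤ i → X i w ≠ y} := by
      ext w
      exact not_not
    rw [h2]
    exact key n
  filter_upwards [h1] with w hw
  rw [frequently_atTop]
  intro n
  have h2 := hw n
  push Not at h2
  obtain ⟨i, hi, hiy⟩ := h2
  exact ⟨i, hi, hiy⟩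

end Pool.Agent.Helper35.MKV
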