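import Pool.Agent.Helper99.MKV.GoalsR

/-!
# MKV: packet FRQ (pure probability)
-/

open Finset MeasureTheory ProbabilityTheory Filter
open scoped ENNReal

namespace Pool.Agent.Helper35.MKV

open Pool.Agent.Helper99.MKV Pool.Agent.Helper99.EXC Pool.Agent.Helper99.ERW

theorem FRQ : FRQ_stmt := by
  intro Ω mΩ P hP Z k1 δ η hη hZ hpos hint hev
  -- the events
  have hSm : ∀ s : ℕ, Measurable (fun w => ∑ k ∈ Finset.Ico k1 s, Z k w) :=
    fun s => Finset.measurable_sum _ fun k _ => hZ k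
  have hAm : ∀ s : ℕ, MeasurableSet {w | ∑ k ∈ Finset.Ico k1 s, Z k w ≤ η * s} :=
    fun s => measurableSet_le (hSm s) measurable_const
  have hUm : ∀ n : ℕ, MeasurableSet {w | ∃ s, n ≤ s ∧ ∑ k ∈ Finset.Ico k1 s, Z k w ≤ η * s} := by
    intro n
    have h1 : {w | ∃ s, n ≤ s ∧ ∑ k ∈ Finset.Ico k1 s, Z k w ≤ η * s} =
        ⋃ s : ℕ, ⋃ (_ : n ≤ s), {w | ∑ k ∈ Finset.Ico k1 s, Z k w ≤ η * s} := by
      ext w; simp
    rw [h1]
    exact MeasurableSet.iUnion fun s => MeasurableSet.iUnion fun _ => hAm s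
  have hinter : {w | ∃ᶠ s : ℕ in atTop, ∑ k ∈ Finset.Ico k1 s, Z k w ≤ η * s} =
      ⋂ n : ℕ, {w | ∃ s, n ≤ s ∧ ∑ k ∈ Finset.Ico k1 s, Z k w ≤ η * s} := by
    ext w
    simp only [Set.mem_iInter, Set.mem_ofPred_eq, frequently_atTop]
  have hmeas : MeasurableSet {w | ∃ᶠ s : ℕ in atTop, ∑ k ∈ Finset.Ico k1 s, Z k w ≤ η * s} := by
    rw [hinter]
    exact MeasurableSet.iInter hUm
  refine ⟨hmeas, ?_⟩
  -- the expectation of the sums
  obtain ⟨k2, hk2⟩ := eventually_atTop.1 hev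
  have hE : ∀ s : ℕ, max k1 k2 ≤ s → ∫ w, ∑ k ∈ Finset.Ico k1 s, Z k w ∂P ≤
      (∑ k ∈ Finset.Ico k1 (max k1 k2), ∫ w, Z k w ∂P) - δ * (max k1 k2 : ℕ) + δ * s := by
    intro s hs
    rw [integral_finsetSum _ fun k hk => hint k (Finset.mem_Ico.1 hk).1]
    rw [← Finset.sum_Ico_consecutive _ (le_max_left k1 k2) hs]
    have h1 : ∑ k ∈ Finset.Ico (max k1 k2) s, ∫ w, Z k w ∂P ≤ ∑ k ∈ Finset.Ico (max k1 k2) s, δ :=
      Finset.sum_le_sum fun k hk => hk2 k ((le_max_right k1 k2).trans (Finset.mem_Ico.1 hk).1)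
    rw [Finset.sum_const, Nat.card_Ico, nsmul_eq_mul, Nat.cast_sub hs] at h1
    linarith
  have hmk : ∀ s : ℕ, max (max k1 k2) 1 ≤ s →
      1 - (((∑ k ∈ Finset.Ico k1 (max k1 k2), ∫ w, Z k w ∂P) - δ * (max k1 k2 : ℕ)) / η * (1 / (s : ℝ)) + δ / η) ≤
      P.real {w | ∑ k ∈ Finset.Ico k1 s, Z k w ≤ η * s} := by
    intro s hs
    have hs1 : max k1 k2 ≤ s := (le_max_left _ _).trans hs
    have hs2 : 1 ≤ s := (le_max_right _ _).trans hs
    have hs0 : (0 : ℝ) < s := by exact_mod_cast hs2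
    have h1 : η * s * P.real {w | η * s ≤ ∑ k ∈ Finset.Ico k1 s, Z k w} ≤ ∫ w, ∑ k ∈ Finset.Ico k1 s, Z k w ∂P := by
      apply mul_meas_ge_le_integral_of_nonneg
      · exact Eventually.of_forall fun w => Finset.sum_nonneg fun k hk => hpos k (Finset.mem_Ico.1 hk).1 w
      · exact integrable_finsetSum _ fun k hk => hint k (Finset.mem_Ico.1 hk).1
    have h2 := h1.trans (hE s hs1)
    have h3 : P.real {w | ∑ k ∈ Finset.Ico k1 s, Z k w ≤ η * s}ᶜ ≤
        P.real {w | η * s ≤ ∑ k ∈ Finset.Ico k1 s, Z k w} := by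
      apply measureReal_mono
      · intro w hw
        have hw' : ¬ (∑ k ∈ Finset.Ico k1 s, Z k w ≤ η * s) := hw
        exact le_of_not_ge hw'
      · exact measure_ne_top _ _
    rw [probReal_compl_eq_one_sub (hAm s)] at h3
    have h4 : η * s * (1 - P.real {w | ∑ k ∈ Finset.Ico k1 s, Z k w ≤ η * s}) ≤
        (∑ k ∈ Finset.Ico k1 (max k1 k2), ∫ w, Z k w ∂P) - δ * (max k1 k2 : ℕ) + δ * s :=
      (mul_le_mul_of_nonneg_left h3 (by positivity)).trans h2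
    have h5 : 1 - P.real {w | ∑ k ∈ Finset.Ico k1 s, Z k w ≤ η * s} ≤
        ((∑ k ∈ Finset.Ico k1 (max k1 k2), ∫ w, Z k w ∂P) - δ * (max k1 k2 : ℕ) + δ * s) / (η * s) := by
      rw [le_div_iff₀ (by positivity)]
      linarith
    have h6 : ((∑ k ∈ Finset.Ico k1 (max k1 k2), ∫ w, Z k w ∂P) - δ * (max k1 k2 : ℕ) + δ * s) / (η * s) =
        ((∑ k ∈ Finset.Ico k1 (max k1 k2), ∫ w, Z k w ∂P) - δ * (max k1 k2 : ℕ)) / η * (1 / (s : ℝ)) + δ / η := by
      field_simp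
    linarith
  have hlimc : Tendsto (fun s : ℕ => 1 - (((∑ k ∈ Finset.Ico k1 (max k1 k2), ∫ w, Z k w ∂P) -
      δ * (max k1 k2 : ℕ)) / η * (1 / (s : ℝ)) + δ / η)) atTop (nhds (1 - δ / η)) := by
    have h1 := (tendsto_one_div_atTop_nhds_zero_nat (𝕜 := ℝ)).const_mul
      (((∑ k ∈ Finset.Ico k1 (max k1 k2), ∫ w, Z k w ∂P) - δ * (max k1 k2 : ℕ)) / η)
    have h2 := (h1.add_const (δ / η)).const_sub 1
    rw [mul_zero, zero_add] at h2
    exact h2
  have hU : ∀ n : ℕ, 1 - δ / η ≤ P.real {w | ∃ s, n ≤ s ∧ ∑ k ∈ Finset.Ico k1 s, Z k w ≤ η * s} := by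
    intro n
    refine le_of_tendsto hlimc ?_
    filter_upwards [eventually_ge_atTop (max n (max (max k1 k2) 1))] with s hs
    refine (hmk s ((le_max_right _ _).trans hs)).trans ?_
    apply measureReal_mono
    · intro w hw
      exact ⟨s, (le_max_left _ _).trans hs, hw⟩
    · exact measure_ne_top _ _
  have hanti : Antitone (fun n : ℕ => {w | ∃ s, n ≤ s ∧ ∑ k ∈ Finset.Ico k1 s, Z k w ≤ η * s}) := by
    intro n m hnm w hw
    obtain ⟨s, hs, hs'⟩ := hw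
    exact ⟨s, hnm.trans hs, hs'⟩
  have hlim := tendsto_measure_iInter_atTop (μ := P) (fun n => (hUm n).nullMeasurableSet) hanti
    ⟨0, measure_ne_top _ _⟩
  rw [← hinter] at hlim
  have hlim2 := (ENNReal.tendsto_toReal (measure_ne_top P _)).comp hlim
  exact ge_of_tendsto' hlim2 fun n => hU n

end Pool.Agent.Helper35.MKV
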